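import Pool.Agent.GOS.Final

/-!
# Classification of the seven-dimensional Riemannian g.o. spaces

All definitions (`Model`, `Effective`, `GO`, `NR`, `SameSpace`, `NatRed`, `NilFamily`, `SpFamily`)
are in `Pool/Agent/GOS/Defs.lean`.
-/

namespace Pool.Agent.Results.MP_cdb478_gt.GeodesicOrbit7

open GOS7

/-- Every seven-dimensional g.o. space is naturally reductive (with respect to some transitive
group of isometries), or a member of the nilpotent family, or a member of the family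
`(SO(5) × SO(2))/U(2)`, `(SO(4,1) × SO(2))/U(2)`; and all members of the families are g.o.
spaces of dimension seven. -/
theorem result :
    (∀ (g : Type) [LieRing g] [LieAlgebra ℝ g] [FiniteDimensional ℝ g] (k : LieSubalgebra ℝ g)
      (B : g → g → ℝ), Model k B → Effective k → GO k B →
      Module.finrank ℝ g = Module.finrank ℝ k + 7 →
      NatRed B ∨
      (∃ l₁ l₂ l₃ : ℝ, l₂ ≤ l₁ ∧ l₃ ≤ l₂ ∧ 0 ≤ l₃ ∧ NilFamily l₁ l₂ l₃ k B) ∨
      (∃ ε α β s : ℝ, (ε = 1 ∨ ε = -1) ∧ 0 < α ∧ 0 < β ∧ 0 ≤ s ∧ SpFamily ε α β s B)) ∧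
    (∀ l₁ l₂ l₃ : ℝ, ∃ (g : Type) (_ : LieRing g) (_ : LieAlgebra ℝ g)
      (k : LieSubalgebra ℝ g) (B : g → g → ℝ), FiniteDimensional ℝ g ∧ Model k B ∧
      Effective k ∧ GO k B ∧ Module.finrank ℝ g = Module.finrank ℝ k + 7 ∧
      NilFamily l₁ l₂ l₃ k B) ∧
    (∀ ε α β s : ℝ, (ε = 1 ∨ ε = -1) → 0 < α → 0 < β →
      ∃ (g : Type) (_ : LieRing g) (_ : LieAlgebra ℝ g)
      (k : LieSubalgebra ℝ g) (B : g → g → ℝ), FiniteDimensional ℝ g ∧ Model k B ∧
      Effective k ∧ GO k B ∧ Module.finrank ℝ g = Module.finrank ℝ k + 7 ∧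
      SpFamily ε α β s B) :=
  GOS.final

end Pool.Agent.Results.MP_cdb478_gt.GeodesicOrbit7
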